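import Pool.Agent.H62.Ic3

set_option autoImplicit false

namespace Pool.Agent.Results.MP_46183d_lc.Classify

open Pool.Agent.H62.Ic

/-- The complexity of the index sets I_C. -/
theorem result :
    (∀ C : Set ℕ,
      Complete (Gam C) (I C) ∧
      (C = ∅ → I C = ∅) ∧
      (C = {0} → Complete (Sig 1) (I C)) ∧
      (C.Finite → ¬ C ⊆ {0} →
        (1 ∉ C → Complete (Diff (alt C)) (I C)) ∧
        (1 ∈ C → Complete (fun X => Diff (alt C) Xᶜ) (I C))) ∧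
      (C.Infinite → Sig 0 C ∨ Sig 1 C ∨ Sig 1 Cᶜ → Complete (Sig 3) (I C)) ∧
      (C.Infinite → Sig 2 C ∨ Sig 2 Cᶜ → Complete (Sig 3) (I C)) ∧
      (Complete (Sig 3) (I C) ↔ Sig 3 C ∧ LM C)) ∧
    ∃ C : Set ℕ, C.Infinite ∧ Sig 3 C ∧ Sig 3 Cᶜ ∧ ¬ Complete (Sig 3) (I C) :=
  ⟨fun C => ⟨gam_complete C, fun h => h ▸ empty_case, fun h => h ▸ zero_case, finite_case,
    sig1_complete, sig2_complete, sig3_complete_iff C⟩, exists_bad⟩

end Pool.Agent.Results.MP_46183d_lc.Classify
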